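import Mathlib

set_option autoImplicit false
set_option linter.unusedSectionVars false
set_option linter.unusedSimpArgs false

namespace Pool.Agent.H356Z.FS

open Relation

/-- one friendly swap -/
def Step {P T : Type} [DecidableEq P] (X : P → P → Prop) (Y : T → T → Prop) (σ τ : P → T) : Prop :=
  ∃ a b, X a b ∧ (Y (σ a) (σ b) ∨ Y (σ b) (σ a)) ∧ τ = σ ∘ Equiv.swap a b

/-- a pair in one component at distance at least `D` -/
def Far (n D : ℕ) : Prop :=
  ∃ (X Y : SimpleGraph (Fin n)) (σ τ : Equiv.Perm (Fin n)),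
    (SimpleGraph.fromRel (fun s t : Equiv.Perm (Fin n) =>
      ∃ a b : Fin n, X.Adj a b ∧ Y.Adj (s a) (s b) ∧ t = s * Equiv.swap a b)).Reachable σ τ ∧
    D ≤ (SimpleGraph.fromRel (fun s t : Equiv.Perm (Fin n) =>
      ∃ a b : Fin n, X.Adj a b ∧ Y.Adj (s a) (s b) ∧ t = s * Equiv.swap a b)).dist σ τ

theorem far_of {P T : Type} [DecidableEq P] {n : ℕ} (e : P ≃ Fin n) (X : P → P → Prop)
    (Y : T → T → Prop) (hY : ∀ t, ¬ Y t t) (σ0 : P ≃ T) (σ1 : P → T)
    (hr : ReflTransGen (Step X Y) σ0 σ1) (R : (P → T) → ℤ → Prop) (h0 : R σ0 0)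
    (hs : ∀ σ τ v, R σ v → Step X Y σ τ → ∃ v', R τ v' ∧ v' ≤ v + 1) (D : ℕ)
    (h1 : ∀ v, R σ1 v → (D : ℤ) ≤ v) : Far n D := by
  classical
  set e' : T ≃ Fin n := σ0.symm.trans e with he'
  set X' : SimpleGraph (Fin n) := SimpleGraph.fromRel (fun a b => X (e.symm a) (e.symm b)) with hX'
  set Y' : SimpleGraph (Fin n) := SimpleGraph.fromRel (fun a b => Y (e'.symm a) (e'.symm b))
    with hY'
  set G := SimpleGraph.fromRel (fun s t : Equiv.Perm (Fin n) =>
      ∃ a b : Fin n, X'.Adj a b ∧ Y'.Adj (s a) (s b) ∧ t = s * Equiv.swap a b) with hG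
  let dec : Equiv.Perm (Fin n) → P → T := fun s p => e'.symm (s (e p))
  have dec_swap : ∀ (s : Equiv.Perm (Fin n)) (a b : P),
      dec (s * Equiv.swap (e a) (e b)) = dec s ∘ Equiv.swap a b := by
    intro s a b
    funext p
    simp only [dec, Equiv.Perm.coe_mul, Function.comp_apply]
    rw [← e.injective.map_swap]
  have one : ∀ s t : Equiv.Perm (Fin n), (∃ a b : Fin n, X'.Adj a b ∧ Y'.Adj (s a) (s b) ∧
      t = s * Equiv.swap a b) → Step X Y (dec s) (dec t) := by
    rintro s t ⟨a, b, hx, hy, rfl⟩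
    obtain ⟨a, rfl⟩ := e.surjective a
    obtain ⟨b, rfl⟩ := e.surjective b
    rw [hX', SimpleGraph.fromRel_adj] at hx
    rw [hY', SimpleGraph.fromRel_adj] at hy
    simp only [Equiv.symm_apply_apply] at hx
    rcases hx.2 with h | h
    · exact ⟨a, b, h, hy.2, dec_swap s a b⟩
    · exact ⟨b, a, h, hy.2.symm, by rw [dec_swap, Equiv.swap_comm]⟩
  have adj_step : ∀ s t, G.Adj s t → Step X Y (dec s) (dec t) := by
    intro s t h
    rw [hG, SimpleGraph.fromRel_adj] at h
    rcases h.2 with h | ⟨a, b, hx, hy, rfl⟩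
    · exact one s t h
    · refine one _ _ ⟨a, b, hx, ?_, ?_⟩
      · simpa using hy.symm
      · rw [mul_assoc, Equiv.swap_mul_self, mul_one]
  have lift : ∀ σ, ReflTransGen (Step X Y) σ0 σ → ∃ s, G.Reachable 1 s ∧ dec s = σ := by
    intro σ h
    induction h with
    | refl => exact ⟨1, SimpleGraph.Reachable.refl _, by funext p; simp [dec, he']⟩
    | tail _ hst ih =>
      obtain ⟨s, hs, rfl⟩ := ih
      obtain ⟨a, b, hx, hy, rfl⟩ := hst
      have hne : dec s a ≠ dec s b := by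
        intro h
        rw [h] at hy
        exact hY _ (hy.elim id id)
      have hab : a ≠ b := fun h => hne (by rw [h])
      refine ⟨s * Equiv.swap (e a) (e b), hs.trans (SimpleGraph.Adj.reachable ?_), dec_swap s a b⟩
      rw [hG, SimpleGraph.fromRel_adj]
      refine ⟨?_, Or.inl ⟨e a, e b, ?_, ?_, rfl⟩⟩
      · intro h
        have := congrArg (fun s => dec s a) h
        simp only [dec_swap, Function.comp_apply, Equiv.swap_apply_left] at this
        exact hne this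
      · rw [hX', SimpleGraph.fromRel_adj]
        exact ⟨e.injective.ne hab, Or.inl (by simpa using hx)⟩
      · rw [hY', SimpleGraph.fromRel_adj]
        exact ⟨fun h => hne (by simp only [dec, h]), hy⟩
  obtain ⟨s1, hs1, hd1⟩ := lift σ1 hr
  refine ⟨X', Y', 1, s1, hs1, ?_⟩
  have walk : ∀ (s t : Equiv.Perm (Fin n)) (w : G.Walk s t) (v : ℤ), R (dec s) v →
      ∃ v', R (dec t) v' ∧ v' ≤ v + w.length := by
    intro s t w
    induction w with
    | nil => intro v hv; exact ⟨v, hv, by simp⟩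
    | cons h w ih =>
      intro v hv
      obtain ⟨v1, hv1, hle⟩ := hs _ _ v hv (adj_step _ _ h)
      obtain ⟨v2, hv2, hle2⟩ := ih v1 hv1
      refine ⟨v2, hv2, ?_⟩
      simp only [SimpleGraph.Walk.length_cons, Nat.cast_add, Nat.cast_one]
      linarith
  obtain ⟨w, hw⟩ := hs1.exists_walk_length_eq_dist
  obtain ⟨v, hv, hle⟩ := walk _ _ w 0 (by
    have : dec 1 = σ0 := by funext p; simp [dec, he']
    rw [this]; exact h0)
  rw [hd1] at hv
  have := h1 v hv
  rw [hw] at hle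
  change D ≤ G.dist 1 s1
  omega

/-- extended positions / tokens -/
inductive Ex (V I : Type) : Type
  | t : V → Ex V I
  | o : Ex V I
  | a : I → Ex V I
  | b : I → Ex V I
  | c : I → Ex V I
  | d : I → Ex V I
  deriving DecidableEq

def Ex.equiv (V I : Type) : Ex V I ≃ V ⊕ Option (I ⊕ I ⊕ I ⊕ I) where
  toFun
    | .t p => .inl p
    | .o => .inr none
    | .a k => .inr (some (.inl k))
    | .b k => .inr (some (.inr (.inl k)))
    | .c k => .inr (some (.inr (.inr (.inl k))))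
    | .d k => .inr (some (.inr (.inr (.inr k))))
  invFun
    | .inl p => .t p
    | .inr none => .o
    | .inr (some (.inl k)) => .a k
    | .inr (some (.inr (.inl k))) => .b k
    | .inr (some (.inr (.inr (.inl k)))) => .c k
    | .inr (some (.inr (.inr (.inr k)))) => .d k
  left_inv x := by cases x <;> rfl
  right_inv x := by
    rcases x with _ | _ | _ | _ | _ | _ <;> rfl

def Ex.map {V W I : Type} (ρ : V → W) : Ex V I → Ex W I
  | .t p => .t (ρ p)
  | .o => .o
  | .a k => .a k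
  | .b k => .b k
  | .c k => .c k
  | .d k => .d k

def Ex.congr {V W I : Type} (ρ : V ≃ W) : Ex V I ≃ Ex W I where
  toFun := Ex.map ρ
  invFun := Ex.map ρ.symm
  left_inv x := by cases x <;> simp [Ex.map]
  right_inv x := by cases x <;> simp [Ex.map]

section Comp

variable {V W I : Type} [DecidableEq V] [DecidableEq I]
  (X0 : V → V → Prop) (Fr : I → W → Prop) (Tg : I → W) (A : I → V)

inductive XR : Ex V I → Ex V I → Prop
  | gu (k : I) : XR .o (.a k)
  | us (k : I) : XR (.a k) (.b k)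
  | uA (k : I) : XR (.a k) (.t (A k))
  | uc (k : I) : XR (.a k) (.c k)
  | uh (k : I) : XR (.a k) (.d k)
  | ht (k : I) (p : V) : XR (.d k) (.t p)
  | tt (p q : V) : X0 p q → XR (.t p) (.t q)

def YR : Ex W I → Ex W I → Prop
  | .a _, .o => True
  | .o, .b _ => True
  | .b k, .t x => x = Tg k
  | .c k, .t x => x = Tg k ∨ Fr k x
  | .c k, .d k' => k = k'
  | _, _ => False

def MStep (ρ ρ' : V ≃ W) : Prop :=
  ∃ k p q, X0 p q ∧ ρ (A k) = Tg k ∧ Fr k (ρ p) ∧ Fr k (ρ q) ∧ ρ' = (Equiv.swap p q).trans ρ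

def hub (k : I) : ℕ → Ex W I
  | 0 => .a k
  | 1 => .o
  | 2 => .b k
  | 3 => .t (Tg k)
  | 4 => .c k
  | _ => .d k

def enc (ρ : V → W) (k : I) (j : ℕ) (p0 : V) : Ex V I → Ex W I
  | .t p => if j = 6 ∧ p = p0 then .c k else if 3 ≤ j ∧ p = A k then .b k else .t (ρ p)
  | .o => if j = 0 then .o else .a k
  | .a k' => if k' = k then hub Tg k j else .a k'
  | .b k' => if k' = k ∧ 2 ≤ j then .o else .b k'
  | .c k' => if k' = k ∧ 4 ≤ j then .t (Tg k) else .c k'
  | .d k' => if k' = k then (if j = 5 then .c k else if j = 6 then .t (ρ p0) else .d k) else .d k'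

theorem enc_zero (ρ : V → W) (k : I) (p0 : V) : enc Tg A ρ k 0 p0 = Ex.map ρ := by
  funext x
  cases x <;> simp [enc, Ex.map, hub] <;> exact fun h => h.symm

theorem enc_p (ρ : V → W) (k : I) {j : ℕ} (hj : j ≠ 6) (p0 p1 : V) :
    enc Tg A ρ k j p0 = enc Tg A ρ k j p1 := by
  funext x
  cases x <;> simp [enc, hj]

theorem enc01 (ρ : V → W) (k : I) (p0 : V) :
    enc Tg A ρ k 0 p0 ∘ Equiv.swap .o (.a k) = enc Tg A ρ k 1 p0 := by
  funext x
  cases x <;> simp [enc, hub, Equiv.swap_apply_def]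
  split_ifs <;> simp_all [enc, hub]

theorem enc12 (ρ : V → W) (k : I) (p0 : V) :
    enc Tg A ρ k 1 p0 ∘ Equiv.swap (.a k) (.b k) = enc Tg A ρ k 2 p0 := by
  funext x
  cases x <;> simp [enc, hub, Equiv.swap_apply_def] <;> split_ifs <;> simp_all [enc, hub]

theorem enc23 (ρ : V → W) (k : I) (p0 : V) (h : ρ (A k) = Tg k) :
    enc Tg A ρ k 2 p0 ∘ Equiv.swap (.a k) (.t (A k)) = enc Tg A ρ k 3 p0 := by
  funext x
  cases x <;> simp [enc, hub, Equiv.swap_apply_def] <;> split_ifs <;> simp_all [enc, hub]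

theorem enc34 (ρ : V → W) (k : I) (p0 : V) :
    enc Tg A ρ k 3 p0 ∘ Equiv.swap (.a k) (.c k) = enc Tg A ρ k 4 p0 := by
  funext x
  cases x <;> simp [enc, hub, Equiv.swap_apply_def] <;> split_ifs <;> simp_all [enc, hub]

theorem enc45 (ρ : V → W) (k : I) (p0 : V) :
    enc Tg A ρ k 4 p0 ∘ Equiv.swap (.a k) (.d k) = enc Tg A ρ k 5 p0 := by
  funext x
  cases x <;> simp [enc, hub, Equiv.swap_apply_def] <;> split_ifs <;> simp_all [enc, hub]

theorem enc56 (ρ : V → W) (k : I) (p0 : V) (h : p0 ≠ A k) :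
    enc Tg A ρ k 5 p0 ∘ Equiv.swap (.d k) (.t p0) = enc Tg A ρ k 6 p0 := by
  funext x
  cases x <;> simp [enc, hub, Equiv.swap_apply_def] <;> split_ifs <;> simp_all [enc, hub]

theorem enc66 (ρ : V → W) (k : I) (p q : V) (hp : p ≠ A k) (hq : q ≠ A k) :
    enc Tg A ρ k 6 p ∘ Equiv.swap (.t p) (.t q) = enc Tg A (ρ ∘ Equiv.swap p q) k 6 q := by
  funext x
  cases x <;> simp [enc, hub, Equiv.swap_apply_def] <;> split_ifs <;> simp_all [enc, hub]
  rename_i h1 h2
  exact fun h => h2 h.symm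

theorem back {P T : Type} [DecidableEq P] {σ τ : P → T} {a b : P}
    (h : σ ∘ Equiv.swap a b = τ) : τ ∘ Equiv.swap a b = σ := by
  rw [← h]
  funext x
  simp

def Rep (σ : Ex V I → Ex W I) (ρ : V ≃ W) : Prop :=
  σ = Ex.map ρ ∨ ∃ k j p0, 1 ≤ j ∧ j ≤ 6 ∧ (3 ≤ j → ρ (A k) = Tg k) ∧ (j = 6 → Fr k (ρ p0)) ∧
    σ = enc Tg A ρ k j p0

variable {X0 Fr Tg A}

theorem rep_enc (ρ : V ≃ W) (k : I) (j : ℕ) (p0 : V) (h6 : j ≤ 6)
    (h3 : 3 ≤ j → ρ (A k) = Tg k) (hF : j = 6 → Fr k (ρ p0)) :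
    Rep Fr Tg A (enc Tg A ρ k j p0) ρ := by
  rcases Nat.eq_zero_or_pos j with rfl | hj
  · exact Or.inl (enc_zero Tg A ρ k p0)
  · exact Or.inr ⟨k, j, p0, hj, h6, h3, hF, rfl⟩

theorem closure (hT : ∀ k, ¬ Fr k (Tg k)) (hX : ∀ p q, X0 p q → X0 q p)
    {σ τ : Ex V I → Ex W I} {ρ : V ≃ W}
    (h : Rep Fr Tg A σ ρ) (hs : Step (XR X0 A) (YR Fr Tg) σ τ) :
    ∃ ρ', (ρ' = ρ ∨ MStep X0 Fr Tg A ρ ρ') ∧ Rep Fr Tg A τ ρ' := by
  obtain ⟨a, b, hx, hy, rfl⟩ := hs
  rcases h with rfl | ⟨k, j, p0, h1, h6, h3, hF, rfl⟩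
  · cases hx with
    | gu k' =>
      refine ⟨ρ, Or.inl rfl, ?_⟩
      rw [← enc_zero Tg A ρ k' (A k'), enc01]
      exact rep_enc ρ k' 1 _ (by omega) (by omega) (by omega)
    | _ => simp [Ex.map, YR] at hy
  have inj : ∀ p, 3 ≤ j → p ≠ A k → ρ p ≠ Tg k := by
    intro p hj hp h
    exact hp (ρ.injective (h.trans (h3 hj).symm))
  have hp0 : j = 6 → p0 ≠ A k := by
    intro hj h
    have := hF hj
    rw [h, h3 (by omega)] at this
    exact hT k this
  cases hx with
  | gu k' =>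
    by_cases hk : k' = k
    · subst hk
      interval_cases j
      · refine ⟨ρ, Or.inl rfl, ?_⟩
        rw [back (enc01 Tg A ρ k' p0)]
        exact rep_enc ρ k' 0 _ (by omega) (by omega) (by omega)
      all_goals simp [enc, hub, YR] at hy
    · have : j ≠ 0 := by omega
      simp [enc, hub, YR, hk, this] at hy
  | us k' =>
    by_cases hk : k' = k
    · subst hk
      interval_cases j
      · refine ⟨ρ, Or.inl rfl, ?_⟩
        rw [enc12]
        exact rep_enc ρ k' 2 _ (by omega) (by omega) (by omega)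
      · refine ⟨ρ, Or.inl rfl, ?_⟩
        rw [back (enc12 Tg A ρ k' p0)]
        exact rep_enc ρ k' 1 _ (by omega) (by omega) (by omega)
      all_goals simp [enc, hub, YR] at hy
    · simp [enc, hub, YR, hk] at hy
  | uA k' =>
    by_cases hk : k' = k
    · subst hk
      interval_cases j
      · simp [enc, hub, YR] at hy
      · have h : ρ (A k') = Tg k' := by simpa [enc, hub, YR] using hy
        refine ⟨ρ, Or.inl rfl, ?_⟩
        rw [enc23 _ _ _ _ _ h]
        exact rep_enc ρ k' 3 _ (by omega) (fun _ => h) (by omega)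
      · refine ⟨ρ, Or.inl rfl, ?_⟩
        rw [back (enc23 Tg A ρ k' p0 (h3 le_rfl))]
        exact rep_enc ρ k' 2 _ (by omega) (by omega) (by omega)
      · simp [enc, hub, YR] at hy
      · simp [enc, hub, YR] at hy
      · simp [enc, hub, YR, (hp0 rfl).symm] at hy
    · simp only [enc, hk, if_false] at hy
      split_ifs at hy <;> simp [YR] at hy
  | uc k' =>
    by_cases hk : k' = k
    · subst hk
      interval_cases j
      · simp [enc, hub, YR] at hy
      · simp [enc, hub, YR] at hy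
      · refine ⟨ρ, Or.inl rfl, ?_⟩
        rw [enc34]
        exact rep_enc ρ k' 4 _ (by omega) (fun _ => h3 le_rfl) (by omega)
      · refine ⟨ρ, Or.inl rfl, ?_⟩
        rw [back (enc34 Tg A ρ k' p0)]
        exact rep_enc ρ k' 3 _ (by omega) (fun _ => h3 (by omega)) (by omega)
      all_goals simp [enc, hub, YR] at hy
    · simp [enc, hub, YR, hk] at hy
  | uh k' =>
    by_cases hk : k' = k
    · subst hk
      interval_cases j
      · simp [enc, hub, YR] at hy
      · simp [enc, hub, YR] at hy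
      · simp [enc, hub, YR] at hy
      · refine ⟨ρ, Or.inl rfl, ?_⟩
        rw [enc45]
        exact rep_enc ρ k' 5 _ (by omega) (fun _ => h3 (by omega)) (by omega)
      · refine ⟨ρ, Or.inl rfl, ?_⟩
        rw [back (enc45 Tg A ρ k' p0)]
        exact rep_enc ρ k' 4 _ (by omega) (fun _ => h3 (by omega)) (by omega)
      · simp [enc, hub, YR] at hy
    · simp [enc, hub, YR, hk] at hy
  | ht k' p =>
    by_cases hk : k' = k
    · subst hk
      by_cases h5 : j = 5
      · subst h5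
        by_cases hp : p = A k'
        · simp [enc, YR, hp] at hy
        · have h : Fr k' (ρ p) := by simpa [enc, YR, hp, inj p (by omega) hp] using hy
          refine ⟨ρ, Or.inl rfl, ?_⟩
          rw [enc_p Tg A ρ k' (by omega) p0 p, enc56 _ _ _ _ _ hp]
          exact rep_enc ρ k' 6 _ (by omega) (fun _ => h3 (by omega)) (fun _ => h)
      by_cases h6' : j = 6
      · subst h6'
        by_cases hpp : p = p0
        · subst hpp
          refine ⟨ρ, Or.inl rfl, ?_⟩
          rw [back (enc56 Tg A ρ k' p (hp0 rfl))]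
          exact rep_enc ρ k' 5 _ (by omega) (fun _ => h3 (by omega)) (by omega)
        · by_cases hp : p = A k'
          · subst hp
            simp [enc, YR, hpp, inj p0 (by omega) (hp0 rfl)] at hy
          · simp [enc, YR, hp, hpp] at hy
      · simp only [enc, h5, h6', if_true, if_false, false_and] at hy
        split_ifs at hy <;> simp [YR] at hy
    · simp only [enc, hk, if_false] at hy
      split_ifs at hy <;> simp [YR] at hy
      exact absurd hy.symm hk
  | tt p q hpq =>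
    have main : ∀ p q, X0 p q → YR Fr Tg (enc Tg A ρ k j p0 (.t p)) (enc Tg A ρ k j p0 (.t q)) →
        ∃ ρ', (ρ' = ρ ∨ MStep X0 Fr Tg A ρ ρ') ∧
          Rep Fr Tg A (enc Tg A ρ k j p0 ∘ Equiv.swap (.t p) (.t q)) ρ' := by
      intro p q hpq hz
      simp only [enc] at hz
      split_ifs at hz with g1 g2 g3 g4 g5 g6 g7 g8 <;> simp only [YR] at hz
      · obtain ⟨rfl, rfl⟩ := g1
        have hq : q ≠ A k := fun h => g3 ⟨by omega, h⟩
        have hFq : Fr k (ρ q) := hz.resolve_left (inj q (by omega) hq)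
        refine ⟨(Equiv.swap p q).trans ρ, Or.inr ⟨k, p, q, hpq, h3 (by omega), hF rfl, hFq, rfl⟩, ?_⟩
        rw [enc66 _ _ _ _ _ _ (hp0 rfl) hq]
        refine rep_enc ((Equiv.swap p q).trans ρ) k 6 q le_rfl (fun _ => ?_) (fun _ => ?_)
        · simp only [Equiv.trans_apply]
          rw [Equiv.swap_apply_of_ne_of_ne (hp0 rfl).symm hq.symm]
          exact h3 (by omega)
        · simpa using hF rfl
      · exact absurd hz (inj q g4.1 (fun h => g6 ⟨g4.1, h⟩))
    rcases hy with hy | hy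
    · exact main p q hpq hy
    · rw [Equiv.swap_comm]
      exact main q p (hX _ _ hpq) hy

theorem simulate (hT : ∀ k, ¬ Fr k (Tg k)) {ρ ρ' : V ≃ W} (h : MStep X0 Fr Tg A ρ ρ') :
    ReflTransGen (Step (XR X0 A) (YR Fr Tg)) (Ex.map ρ) (Ex.map ρ') := by
  obtain ⟨k, p, q, hpq, hA, hp, hq, rfl⟩ := h
  have hp' : p ≠ A k := fun h => hT k (by rw [← hA, ← h]; exact hp)
  have hq' : q ≠ A k := fun h => hT k (by rw [← hA, ← h]; exact hq)
  have up : ∀ (ρ : V ≃ W) (p : V), p ≠ A k → ρ (A k) = Tg k → Fr k (ρ p) →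
      ReflTransGen (Step (XR X0 A) (YR Fr Tg)) (Ex.map ρ) (enc Tg A ρ k 6 p) ∧
      ReflTransGen (Step (XR X0 A) (YR Fr Tg)) (enc Tg A ρ k 6 p) (Ex.map ρ) := by
    intro ρ p hp' hA hp
    have both : ∀ {σ τ : Ex V I → Ex W I} (a b : Ex V I), XR X0 A a b →
        (YR Fr Tg (σ a) (σ b) ∨ YR Fr Tg (σ b) (σ a)) → σ ∘ Equiv.swap a b = τ →
        Step (XR X0 A) (YR Fr Tg) σ τ ∧ Step (XR X0 A) (YR Fr Tg) τ σ := by
      intro σ τ a b hx hy he
      refine ⟨⟨a, b, hx, hy, he.symm⟩, ⟨a, b, hx, ?_, (back he).symm⟩⟩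
      rw [← he]
      simpa using hy.symm
    have s1 := both _ _ (XR.gu k) (by simp [enc, hub, YR]) (enc01 Tg A ρ k p)
    have s2 := both _ _ (XR.us k) (by simp [enc, hub, YR]) (enc12 Tg A ρ k p)
    have s3 := both _ _ (XR.uA k) (by simp [enc, hub, YR, hA]) (enc23 Tg A ρ k p hA)
    have s4 := both _ _ (XR.uc k) (by simp [enc, hub, YR]) (enc34 Tg A ρ k p)
    have s5 := both _ _ (XR.uh k) (by simp [enc, hub, YR]) (enc45 Tg A ρ k p)
    have s6 := both _ _ (XR.ht k p) (by simp [enc, hub, YR, hp', hp]) (enc56 Tg A ρ k p hp')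
    rw [← enc_zero Tg A ρ k p]
    exact ⟨(((((ReflTransGen.single s1.1).tail s2.1).tail s3.1).tail s4.1).tail s5.1).tail s6.1,
      (((((ReflTransGen.single s6.2).tail s5.2).tail s4.2).tail s3.2).tail s2.2).tail s1.2⟩
  have u1 := (up ρ p hp' hA hp).1
  have u2 := (up ((Equiv.swap p q).trans ρ) q hq' (by
    simp only [Equiv.trans_apply]
    rw [Equiv.swap_apply_of_ne_of_ne hp'.symm hq'.symm]
    exact hA) (by simpa using hp)).2
  by_cases hpq' : p = q
  · subst hpq'
    simp only [Equiv.swap_self, Equiv.refl_trans]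
    exact ReflTransGen.refl
  refine (u1.tail ⟨.t p, .t q, XR.tt p q hpq, Or.inl ?_, ?_⟩).trans u2
  · simp [enc, YR, hq', hq, Ne.symm hpq']
  · exact (enc66 Tg A ρ k p q hp' hq').symm

theorem compile [Fintype V] [Fintype I] (hT : ∀ k, ¬ Fr k (Tg k)) (hX : ∀ p q, X0 p q → X0 q p)
    (ρ0 ρ1 : V ≃ W) (hr : ReflTransGen (MStep X0 Fr Tg A) ρ0 ρ1) (R : (V ≃ W) → ℤ → Prop)
    (h0 : R ρ0 0) (hs : ∀ ρ ρ' v, R ρ v → MStep X0 Fr Tg A ρ ρ' → ∃ v', R ρ' v' ∧ v' ≤ v + 1)
    (D : ℕ) (h1 : ∀ v, R ρ1 v → (D : ℤ) ≤ v) :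
    Far (Fintype.card V + (4 * Fintype.card I + 1)) D := by
  classical
  refine far_of ((Ex.equiv V I).trans (Fintype.equivFinOfCardEq ?_)) (XR X0 A) (YR Fr Tg) ?_
    (Ex.congr ρ0) (Ex.map ρ1) ?_ (fun σ v => ∃ ρ, Rep Fr Tg A σ ρ ∧ R ρ v) ⟨ρ0, Or.inl rfl, h0⟩
    ?_ D ?_
  · simp only [Fintype.card_sum, Fintype.card_option]; ring
  · intro t; cases t <;> simp [YR]
  · change ReflTransGen _ (Ex.map ρ0) _
    clear h1
    induction hr with
    | refl => exact ReflTransGen.refl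
    | tail _ h ih => exact ih.trans (simulate hT h)
  · rintro σ τ v ⟨ρ, hρ, hv⟩ hst
    obtain ⟨ρ', h' | h', hrep⟩ := closure hT hX hρ hst
    · subst h'
      exact ⟨v, ⟨ρ', hrep, hv⟩, by omega⟩
    · obtain ⟨v', hv', hle⟩ := hs ρ ρ' v hv h'
      exact ⟨v', ⟨ρ', hrep, hv'⟩, hle⟩
  · rintro v ⟨ρ, hρ | ⟨k, j, p0, hj, -, -, -, hρ⟩, hv⟩
    · have : ρ1 = ρ := by
        ext p
        simpa [Ex.map] using congrFun hρ (.t p)
      subst this
      exact h1 v hv
    · have := congrFun hρ .o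
      have hj0 : j ≠ 0 := by omega
      simp [Ex.map, enc, hj0] at this

end Comp

end Pool.Agent.H356Z.FS
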