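import Pool.Agent.H356Z.FS.Comp

set_option autoImplicit false
set_option linter.unusedSectionVars false
set_option linter.unusedSimpArgs false

namespace Pool.Agent.H356Z.FS

open Relation

section Pot

def cc (k : ℕ) (d : ℕ) : ℤ := k * ((k : ℤ) - 1) ^ d

def Psi (k : ℕ) (r : ℕ → ℕ) : ℕ → ℕ → ℤ
  | 0, l => r l
  | d + 1, l => if r l = 0 then 0 else if k ≤ r l then cc k (d + 1) else
      ((r l : ℤ) - 1) * cc k d + (if r l % 2 = 1 then Psi k r d (l + 1) else cc k d - Psi k r d (l + 1))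

theorem Psi_zero (k : ℕ) (r : ℕ → ℕ) (d l : ℕ) (h : r l = 0) : Psi k r d l = 0 := by
  cases d <;> simp [Psi, h]

theorem Psi_top (k : ℕ) (hk : 0 < k) (r : ℕ → ℕ) (d l : ℕ) (h : r l = k) : Psi k r d l = cc k d := by
  cases d with
  | zero => simp [Psi, h, cc]
  | succ d => simp [Psi, h, hk.ne']

theorem Psi_congr (k : ℕ) (r r' : ℕ → ℕ) (d : ℕ) : ∀ l, (∀ i, l ≤ i → r' i = r i) →
    Psi k r' d l = Psi k r d l := by
  induction d with
  | zero => intro l h; simp [Psi, h l le_rfl]
  | succ d ih =>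
    intro l h
    simp only [Psi, h l le_rfl, ih (l + 1) (fun i hi => h i (by omega))]

theorem cc_succ (k d : ℕ) : cc k (d + 1) = ((k : ℤ) - 1) * cc k d := by
  simp only [cc]; ring

/-- crossing filler `j` by token `l` -/
theorem Psi_cross (k m : ℕ) (r r' : ℕ → ℕ) (l j : ℕ) (hj : j < k) (h0 : r l = j) (h1 : r' l = j + 1)
    (hne : ∀ i, i ≠ l → r' i = r i) (htr : l + 1 < m → r (l + 1) = if j % 2 = 1 then k else 0)
    (d : ℕ) : ∀ l0, l0 + d + 1 = m → |Psi k r' d l0 - Psi k r d l0| ≤ 1 := by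
  induction d with
  | zero =>
    intro l0 _
    simp only [Psi]
    by_cases h : l0 = l
    · subst h; rw [h0, h1]; simp
    · rw [hne l0 h]; simp
  | succ d ih =>
    intro l0 hl0
    rcases lt_trichotomy l l0 with h | h | h
    · rw [Psi_congr k r r' _ l0 (fun i hi => hne i (by omega))]; simp
    · subst h
      have e : Psi k r' d (l + 1) = Psi k r d (l + 1) :=
        Psi_congr k r r' _ _ (fun i hi => hne i (by omega))
      have ht := htr (by omega)
      have key : Psi k r' (d + 1) l = j * cc k d ∧ Psi k r (d + 1) l = j * cc k d := by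
        simp only [Psi, h0, h1, e]
        by_cases hp : j % 2 = 1
        · rw [if_pos hp] at ht
          rw [Psi_top k (by omega) r d _ ht]
          have h2 : ¬ (j + 1) % 2 = 1 := by omega
          have h3 : j ≠ 0 := by omega
          have h4 : ¬ k ≤ j := by omega
          simp only [hp, h2, h3, h4, if_true, if_false, Nat.succ_ne_zero]
          refine ⟨?_, by ring⟩
          split_ifs with h5
          · have : (k : ℤ) = j + 1 := by omega
            rw [cc_succ, this]; ring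
          · push_cast; ring
        · rw [if_neg hp] at ht
          rw [Psi_zero k r d _ ht]
          have h2 : (j + 1) % 2 = 1 := by omega
          have h4 : ¬ k ≤ j := by omega
          simp only [hp, h2, h4, if_true, if_false, Nat.succ_ne_zero]
          constructor
          · split_ifs with h5
            · have : (k : ℤ) = j + 1 := by omega
              rw [cc_succ, this]; ring
            · push_cast; ring
          · split_ifs with h5
            · simp [h5]
            · ring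
      rw [key.1, key.2]; simp
    · have := ih (l0 + 1) (by omega)
      simp only [Psi, hne l0 (by omega)]
      split_ifs
      · simp
      · simp
      · simpa using this
      · rw [abs_sub_comm] at this
        convert this using 2
        ring

end Pot

section Track

variable {m k : ℕ}

abbrev VV (m k : ℕ) := Fin (m + k + 1)
abbrev WW (m k : ℕ) := Option (Fin m ⊕ Fin k)
abbrev KK (m : ℕ) := Option (Fin m × Bool)

def tau (l : Fin m) : WW m k := some (.inl l)
def fil (j : Fin k) : WW m k := some (.inr j)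

def X0 (p q : VV m k) : Prop := q.val = p.val + 1 ∨ p.val = q.val + 1

def Fr : KK m → WW m k → Prop
  | none, x => ∃ l, x = tau l
  | some (l, e), x => x = tau l ∨ ∃ j, x = fil j ∧ decide (j.val % 2 = 1) = e

def Tg : KK m → WW m k
  | none => none
  | some (l, _) => if h : l.val + 1 < m then tau ⟨l.val + 1, h⟩ else none

def Ho : KK m → VV m k
  | none => 0
  | some (l, e) => if h : l.val + 1 < m then (if e then Fin.last _ else ⟨1, by omega⟩) else 0

abbrev MS : (VV m k ≃ WW m k) → (VV m k ≃ WW m k) → Prop := MStep X0 Fr Tg Ho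

def pos (ρ : VV m k ≃ WW m k) (x : WW m k) : ℕ := (ρ.symm x).val

theorem pos_inj (ρ : VV m k ≃ WW m k) {x y : WW m k} (h : x ≠ y) : pos ρ x ≠ pos ρ y :=
  fun h' => h (ρ.symm.injective (Fin.ext h'))

theorem pos_le (ρ : VV m k ≃ WW m k) (x : WW m k) : pos ρ x ≤ m + k := by
  have := (ρ.symm x).2
  unfold pos; omega

theorem pos_surj (ρ : VV m k ≃ WW m k) (q : ℕ) (hq : q ≤ m + k) : ∃ x, pos ρ x = q :=
  ⟨ρ ⟨q, by omega⟩, by simp [pos]⟩

def Mv (ρ ρ' : VV m k ≃ WW m k) (x y : WW m k) : Prop :=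
  pos ρ y = pos ρ x + 1 ∧ pos ρ' x = pos ρ y ∧ pos ρ' y = pos ρ x ∧
    ∀ z, z ≠ x → z ≠ y → pos ρ' z = pos ρ z

theorem mv_swap (ρ : VV m k ≃ WW m k) (p q : VV m k) (h : q.val = p.val + 1) :
    Mv ρ ((Equiv.swap p q).trans ρ) (ρ p) (ρ q) := by
  refine ⟨by simp [pos, h], by simp [pos], by simp [pos], fun z h1 h2 => ?_⟩
  obtain ⟨w, rfl⟩ := ρ.surjective z
  simp only [pos, Equiv.symm_trans_apply, Equiv.symm_apply_apply, Equiv.symm_swap]
  rw [Equiv.swap_apply_of_ne_of_ne (fun h => h1 (by rw [h])) (fun h => h2 (by rw [h]))]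

theorem ms_mv {ρ ρ' : VV m k ≃ WW m k} (h : MS ρ ρ') :
    ∃ κ x y, pos ρ (Tg κ) = (Ho κ : VV m k).val ∧ Fr κ x ∧ Fr κ y ∧ Mv ρ ρ' x y := by
  obtain ⟨κ, p, q, hpq, hA, hp, hq, rfl⟩ := h
  have : pos ρ (Tg κ) = (Ho κ : VV m k).val := by rw [← hA]; simp [pos]
  rcases hpq with h | h
  · exact ⟨κ, _, _, this, hp, hq, mv_swap ρ p q h⟩
  · exact ⟨κ, _, _, this, hq, hp, by rw [Equiv.swap_comm]; exact mv_swap ρ q p h⟩

theorem mv_ms (ρ : VV m k ≃ WW m k) (κ : KK m) (x y : WW m k)
    (ht : pos ρ (Tg κ) = (Ho κ : VV m k).val) (hx : Fr κ x) (hy : Fr κ y)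
    (h : pos ρ y = pos ρ x + 1) : ∃ ρ', MS ρ ρ' ∧ Mv ρ ρ' x y := by
  obtain ⟨p, rfl⟩ := ρ.surjective x
  obtain ⟨q, rfl⟩ := ρ.surjective y
  have h' : q.val = p.val + 1 := by simpa [pos] using h
  refine ⟨_, ⟨κ, p, q, Or.inl h', ?_, hx, hy, rfl⟩, mv_swap ρ p q h'⟩
  have : ρ.symm (Tg κ) = Ho κ := Fin.ext ht
  rw [← this]; simp

def St (ρ : VV m k ≃ WW m k) (r : ℕ → ℕ) : Prop :=
  pos ρ none = 0 ∧ (∀ j j' : Fin k, j.val < j'.val → pos ρ (fil j) < pos ρ (fil j')) ∧
    ∀ l : Fin m, r l ≤ k ∧ ∀ j : Fin k, pos ρ (fil j) < pos ρ (tau l) ↔ j.val < r l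

theorem tau_ne_fil (l : Fin m) (j : Fin k) : (tau l : WW m k) ≠ fil j := by simp [tau, fil]
theorem fil_ne_tau (l : Fin m) (j : Fin k) : (fil j : WW m k) ≠ tau l := by simp [tau, fil]
theorem none_ne_tau (l : Fin m) : (none : WW m k) ≠ tau l := by simp [tau]
theorem none_ne_fil (j : Fin k) : (none : WW m k) ≠ fil j := by simp [fil]
theorem tau_ne {l l' : Fin m} (h : l ≠ l') : (tau l : WW m k) ≠ tau l' := by simpa [tau] using h
theorem fil_ne {l l' : Fin k} (h : l ≠ l') : (fil l : WW m k) ≠ fil l' := by simpa [fil] using h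

theorem St.tt {ρ ρ' : VV m k ≃ WW m k} {r : ℕ → ℕ} (h : St ρ r) {a b : Fin m}
    (hm : Mv ρ ρ' (tau a) (tau b)) : St ρ' r := by
  obtain ⟨h0, h1, h2⟩ := h
  obtain ⟨m1, m2, m3, m4⟩ := hm
  have hf : ∀ j, pos ρ' (fil j) = pos ρ (fil j) := fun j => m4 _ (fil_ne_tau _ _) (fil_ne_tau _ _)
  refine ⟨by rw [m4 _ (none_ne_tau _) (none_ne_tau _)]; exact h0, by simpa only [hf] using h1,
    fun l => ⟨(h2 l).1, fun j => ?_⟩⟩
  rw [← (h2 l).2 j, hf]
  have n1 := pos_inj ρ (fil_ne_tau a j)
  have n2 := pos_inj ρ (fil_ne_tau b j)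
  by_cases ha : l = a
  · subst ha; omega
  by_cases hb : l = b
  · subst hb; omega
  rw [m4 _ (tau_ne ha) (tau_ne hb)]

theorem St.cross {ρ ρ' : VV m k ≃ WW m k} {r : ℕ → ℕ} (h : St ρ r) {l : Fin m} {j : Fin k}
    (b : Bool) (hm : if b then Mv ρ ρ' (tau l) (fil j) else Mv ρ ρ' (fil j) (tau l)) :
    r l = (if b then j.val else j.val + 1) ∧
      St ρ' (Function.update r l (if b then j.val + 1 else j.val)) := by
  obtain ⟨h0, h1, h2⟩ := h
  have m4 : ∀ z, z ≠ tau l → z ≠ fil j → pos ρ' z = pos ρ z := by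
    cases b
    · exact fun z a b => hm.2.2.2 z b a
    · exact hm.2.2.2
  have m2 : pos ρ' (tau l) = pos ρ (fil j) ∧ pos ρ' (fil j) = pos ρ (tau l) ∧
      (if b then pos ρ (fil j) = pos ρ (tau l) + 1 else pos ρ (tau l) = pos ρ (fil j) + 1) := by
    cases b
    · exact ⟨hm.2.2.1, hm.2.1, hm.1⟩
    · exact ⟨hm.2.1, hm.2.2.1, hm.1⟩
  obtain ⟨m2, m3, m1⟩ := m2
  have hf : ∀ j', j' ≠ j → pos ρ' (fil j') = pos ρ (fil j') :=
    fun j' hj => m4 _ (fil_ne_tau _ _) (fil_ne hj)
  have cmp : ∀ j' : Fin k, j' ≠ j → (pos ρ (fil j') < pos ρ (tau l) ↔ j'.val < j.val) ∧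
      (pos ρ (fil j') < pos ρ (fil j) ↔ j'.val < j.val) ∧ pos ρ (fil j') ≠ pos ρ (tau l) ∧
      j'.val ≠ j.val := by
    intro j' hj
    have n1 := pos_inj ρ (fil_ne_tau l j')
    have n2 : j'.val ≠ j.val := fun h => hj (Fin.ext h)
    have a1 := h1 j j'
    have a2 := h1 j' j
    cases b <;> simp only [if_true, Bool.false_eq_true, if_false] at m1 <;> omega
  have hr : r l = (if b then j.val else j.val + 1) := by
    have a1 := (h2 l).2 j
    have a0 := (h2 l).1
    cases b <;> simp only [if_true, Bool.false_eq_true, if_false] at m1 ⊢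
    · by_contra hc
      have : j.val + 1 < k := by omega
      have a2 := (h2 l).2 ⟨j.val + 1, this⟩
      have a3 := (cmp ⟨j.val + 1, this⟩ (fun h => by have := congrArg Fin.val h; simp at this)).1
      simp only at a2 a3
      omega
    · by_contra hc
      have : r l < k := by omega
      have a2 := (h2 l).2 ⟨r l, this⟩
      have a3 := (cmp ⟨r l, this⟩ (fun h => by have := congrArg Fin.val h; simp at this; omega)).1
      simp only at a2 a3
      omega
  refine ⟨hr, by rw [m4 _ (none_ne_tau _) (none_ne_fil _)]; exact h0, ?_, fun l' => ?_⟩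
  · intro j1 j2 hlt
    have a0 := h1 j1 j2 hlt
    by_cases e1 : j1 = j
    · subst e1
      have e2 : j2 ≠ j1 := fun h => by rw [h] at hlt; omega
      have := cmp j2 e2
      rw [m3, hf j2 e2]; omega
    by_cases e2 : j2 = j
    · subst e2
      have := cmp j1 e1
      rw [m3, hf j1 e1]; omega
    rw [hf j1 e1, hf j2 e2]; exact a0
  · by_cases hl : l' = l
    · subst hl
      rw [Function.update_self]
      have := j.2
      refine ⟨by split_ifs <;> omega, fun j' => ?_⟩
      by_cases e : j' = j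
      · subst e
        rw [m2, m3]
        cases b <;> simp only [if_true, Bool.false_eq_true, if_false] at m1 ⊢ <;> omega
      · have := cmp j' e
        rw [m2, hf j' e]
        cases b <;> simp only [if_true, Bool.false_eq_true, if_false] <;> omega
    · rw [Function.update_of_ne (fun h => hl (Fin.ext h))]
      refine ⟨(h2 l').1, fun j' => ?_⟩
      rw [← (h2 l').2 j', m4 _ (tau_ne hl) (tau_ne_fil _ _)]
      by_cases e : j' = j
      · subst e
        have n1 := pos_inj ρ (tau_ne (k := k) hl)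
        have n2 := pos_inj ρ (tau_ne_fil l' j')
        rw [m3]
        cases b <;> simp only [if_true, Bool.false_eq_true, if_false] at m1 <;> omega
      · rw [hf j' e]

theorem St.trig {ρ : VV m k ≃ WW m k} {r : ℕ → ℕ} (h : St ρ r) (l : Fin m) (e : Bool)
    (ht : pos ρ (Tg (some (l, e))) = (Ho (some (l, e)) : VV m k).val) (hl : l.val + 1 < m) :
    r (l.val + 1) = if e then k else 0 := by
  simp only [Tg, Ho, hl, dif_pos] at ht
  obtain ⟨h0, h1, h2⟩ := h
  obtain ⟨a0, a1⟩ := h2 ⟨l.val + 1, hl⟩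
  simp only at a0 a1
  cases e
  · simp only [Bool.false_eq_true, if_false] at ht ⊢
    by_contra hc
    have hk : 0 < k := by omega
    have a2 := a1 ⟨0, hk⟩
    have a3 := pos_inj ρ (none_ne_fil (m := m) ⟨0, hk⟩)
    simp only at a2
    omega
  · simp only [if_true, Fin.val_last] at ht ⊢
    by_contra hc
    have hk : r (l.val + 1) < k := by omega
    have a2 := a1 ⟨_, hk⟩
    have a3 := pos_inj ρ (fil_ne_tau ⟨l.val + 1, hl⟩ ⟨_, hk⟩)
    have a4 := pos_le ρ (fil ⟨_, hk⟩)
    simp only at a2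
    omega

theorem St.step {ρ ρ' : VV m k ≃ WW m k} {r : ℕ → ℕ} (h : St ρ r) (hs : MS ρ ρ') (d : ℕ)
    (hd : d + 1 = m) : ∃ r', St ρ' r' ∧ Psi k r' d 0 ≤ Psi k r d 0 + 1 := by
  obtain ⟨κ, x, y, ht, hx, hy, hm⟩ := ms_mv hs
  rcases κ with _ | ⟨l, e⟩
  · obtain ⟨a, rfl⟩ := hx
    obtain ⟨b, rfl⟩ := hy
    exact ⟨r, h.tt hm, by omega⟩
  have htr := h.trig l e ht
  rcases hx with rfl | ⟨j, rfl, hj⟩ <;> rcases hy with rfl | ⟨j', rfl, hj'⟩
  · exact ⟨r, h.tt hm, by omega⟩
  · obtain ⟨h1, h2⟩ := h.cross (l := l) (j := j') true hm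
    refine ⟨_, h2, ?_⟩
    have := Psi_cross k m r (Function.update r l (j'.val + 1)) l j' j'.2 h1 (by simp)
      (fun i hi => Function.update_of_ne hi _ _) (fun hl => by rw [htr hl, ← hj']; simp) d 0
      (by omega)
    have := (abs_le.1 this).2
    simp only [if_true]
    omega
  · obtain ⟨h1, h2⟩ := h.cross (l := l) (j := j) false hm
    refine ⟨_, h2, ?_⟩
    have := Psi_cross k m (Function.update r l j.val) r l j j.2 (by simp) h1
      (fun i hi => (Function.update_of_ne hi _ _).symm)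
      (fun hl => by rw [Function.update_of_ne (by omega), htr hl, ← hj]; simp) d 0 (by omega)
    have := (abs_le.1 this).1
    simp only [Bool.false_eq_true, if_false]
    omega
  · exfalso
    have m1 := hm.1
    have hp : j.val % 2 = 1 ↔ j'.val % 2 = 1 := by
      rw [← hj'] at hj; simpa using hj
    have a1 := h.2.1 j' j
    have hne : j.val ≠ j'.val := fun h => by
      rw [Fin.ext h] at m1; omega
    have hlt : j.val + 1 < j'.val := by omega
    have a2 := h.2.1 j ⟨j.val + 1, by omega⟩ (by simp)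
    have a3 := h.2.1 ⟨j.val + 1, by omega⟩ j' hlt
    omega

end Track

end Pool.Agent.H356Z.FS
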