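import Pool.Agent.H356Z.FS.Count

set_option autoImplicit false
set_option linter.unusedSectionVars false
set_option linter.unusedSimpArgs false

namespace Pool.Agent.H356Z.FS

open Relation

variable {m k : ℕ}

abbrev RR : (VV m k ≃ WW m k) → (VV m k ≃ WW m k) → Prop := ReflTransGen MS

theorem St.key {ρ : VV m k ≃ WW m k} {r : ℕ → ℕ} (h : St ρ r) :
    pos ρ (Tg none) = (Ho none : VV m k).val := h.1

theorem bubbleR (l : Fin m) (r : ℕ → ℕ) (n : ℕ) : ∀ (ρ : VV m k ≃ WW m k), St ρ r →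
    pos ρ (tau l) + n ≤ m + k →
    (∀ j, pos ρ (fil j) < pos ρ (tau l) ∨ pos ρ (tau l) + n < pos ρ (fil j)) →
    ∃ ρ', RR ρ ρ' ∧ St ρ' r ∧ pos ρ' (tau l) = pos ρ (tau l) + n ∧
      ∀ z, (pos ρ z < pos ρ (tau l) ∨ pos ρ (tau l) + n < pos ρ z) → pos ρ' z = pos ρ z := by
  induction n with
  | zero => intro ρ h _ _; exact ⟨ρ, ReflTransGen.refl, h, rfl, fun _ _ => rfl⟩
  | succ n ih =>
    intro ρ h hle hf
    obtain ⟨y, hy⟩ := pos_surj ρ (pos ρ (tau l) + 1) (by omega)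
    rcases y with _ | a | j
    · have := h.1; omega
    · obtain ⟨ρ1, s1, m1⟩ := mv_ms ρ none (tau l) (tau a) h.key ⟨l, rfl⟩ ⟨a, rfl⟩ hy
      obtain ⟨e1, e2, e3, e4⟩ := id m1
      have hf1 : ∀ j, pos ρ1 (fil j) = pos ρ (fil j) :=
        fun j => e4 _ (fil_ne_tau _ _) (fil_ne_tau _ _)
      obtain ⟨ρ2, s2, t2, p2, q2⟩ := ih ρ1 (h.tt m1) (by omega) (fun j => by
        have := hf j; rw [hf1]; omega)
      refine ⟨ρ2, ReflTransGen.head s1 s2, t2, by omega, fun z hz => ?_⟩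
      have z1 : z ≠ tau l := fun h => by rw [h] at hz; omega
      have z2 : z ≠ tau a := fun h => by rw [h] at hz; omega
      have := e4 z z1 z2
      rw [q2 z (by omega), this]
    · have := hf j
      change pos ρ (fil j) = _ at hy
      omega

theorem bubbleL (l : Fin m) (r : ℕ → ℕ) (n : ℕ) : ∀ (ρ : VV m k ≃ WW m k), St ρ r →
    n + 1 ≤ pos ρ (tau l) →
    (∀ j, pos ρ (fil j) + n < pos ρ (tau l) ∨ pos ρ (tau l) < pos ρ (fil j)) →
    ∃ ρ', RR ρ ρ' ∧ St ρ' r ∧ pos ρ' (tau l) + n = pos ρ (tau l) ∧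
      ∀ z, (pos ρ z + n < pos ρ (tau l) ∨ pos ρ (tau l) < pos ρ z) → pos ρ' z = pos ρ z := by
  induction n with
  | zero => intro ρ h _ _; exact ⟨ρ, ReflTransGen.refl, h, rfl, fun _ _ => rfl⟩
  | succ n ih =>
    intro ρ h hle hf
    have := pos_le ρ (tau l)
    obtain ⟨y, hy⟩ := pos_surj ρ (pos ρ (tau l) - 1) (by omega)
    rcases y with _ | a | j
    · have := h.1; omega
    · change pos ρ (tau a) = _ at hy
      obtain ⟨ρ1, s1, m1⟩ := mv_ms ρ none (tau a) (tau l) h.key ⟨a, rfl⟩ ⟨l, rfl⟩ (by omega)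
      obtain ⟨e1, e2, e3, e4⟩ := id m1
      have hf1 : ∀ j, pos ρ1 (fil j) = pos ρ (fil j) :=
        fun j => e4 _ (fil_ne_tau _ _) (fil_ne_tau _ _)
      obtain ⟨ρ2, s2, t2, p2, q2⟩ := ih ρ1 (h.tt m1) (by omega) (fun j => by
        have := hf j; rw [hf1]; omega)
      refine ⟨ρ2, ReflTransGen.head s1 s2, t2, by omega, fun z hz => ?_⟩
      have z1 : z ≠ tau l := fun h => by rw [h] at hz; omega
      have z2 : z ≠ tau a := fun h => by rw [h] at hz; omega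
      have := e4 z z2 z1
      rw [q2 z (by omega), this]
    · have := hf j
      change pos ρ (fil j) = _ at hy
      omega

def Trig (k : ℕ) (l : Fin m) : Prop := ∀ (e : Bool) (ρ : VV m k ≃ WW m k) (r : ℕ → ℕ), St ρ r →
  ∃ ρ' r', RR ρ ρ' ∧ St ρ' r' ∧ pos ρ' (Tg (some (l, e))) = (Ho (some (l, e)) : VV m k).val ∧
    ∀ i, i ≤ l.val → r' i = r i

theorem trig_cases (l : Fin m) (e : Bool) (ρ : VV m k ≃ WW m k)
    (h : pos ρ (Tg (some (l, e))) = (Ho (some (l, e)) : VV m k).val) :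
    (Tg (some (l, e)) : WW m k) ≠ tau l ∧ (∀ j, (Tg (some (l, e)) : WW m k) ≠ fil j) ∧
    (pos ρ (Tg (some (l, e))) ≤ 1 ∨ pos ρ (Tg (some (l, e))) = m + k) := by
  by_cases hl : l.val + 1 < m
  · simp only [Tg, Ho, hl, dif_pos] at h ⊢
    refine ⟨tau_ne (fun h => by have := congrArg Fin.val h; simp at this),
      fun j => tau_ne_fil _ _, ?_⟩
    cases e
    · left; simp at h; omega
    · right; simpa using h
  · simp only [Tg, Ho, hl, dif_neg, not_false_eq_true] at h ⊢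
    exact ⟨none_ne_tau _, none_ne_fil, Or.inl (by simp at h; omega)⟩

theorem crossR {l : Fin m} (hT : Trig k l) (ρ : VV m k ≃ WW m k) (r : ℕ → ℕ) (h : St ρ r)
    (hr : r l < k) : ∃ ρ' r', RR ρ ρ' ∧ St ρ' r' ∧ r' l = r l + 1 ∧ ∀ i, i < l.val → r' i = r i := by
  set j : Fin k := ⟨r l, hr⟩ with hj
  obtain ⟨ρ1, r1, s1, t1, p1, q1⟩ := hT (decide (j.val % 2 = 1)) ρ r h
  obtain ⟨c1, c2, c3⟩ := trig_cases l _ ρ1 p1
  have hl := q1 l le_rfl
  have a1 := (t1.2.2 l).2 j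
  have a2 := pos_inj ρ1 (tau_ne_fil l j)
  have a3 := pos_le ρ1 (fil j)
  have hjv : j.val = r l := rfl
  obtain ⟨ρ2, s2, t2, p2, q2⟩ := bubbleR l r1 (pos ρ1 (fil j) - pos ρ1 (tau l) - 1) ρ1 t1
    (by omega) (fun j' => by
      have b1 := (t1.2.2 l).2 j'
      have b2 := t1.2.1 j j'
      by_cases e : j' = j
      · rw [e]; omega
      · have : j'.val ≠ j.val := fun h => e (Fin.ext h)
        omega)
  have b1 := q2 (fil j) (by omega)
  have b2 := q2 (Tg (some (l, decide (j.val % 2 = 1)))) (by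
    have d1 := pos_inj ρ1 c1
    have d2 := pos_inj ρ1 (none_ne_tau l)
    have d3 := t1.1
    omega)
  obtain ⟨ρ3, s3, m3⟩ := mv_ms ρ2 (some (l, decide (j.val % 2 = 1))) (tau l) (fil j)
    (b2.trans p1) (Or.inl rfl) (Or.inr ⟨j, rfl, rfl⟩) (by omega)
  obtain ⟨-, t3⟩ := t2.cross (l := l) (j := j) true m3
  refine ⟨ρ3, _, (s1.trans s2).tail s3, t3, by simp [hjv], fun i hi => ?_⟩
  rw [Function.update_of_ne (by omega), q1 i hi.le]

theorem crossL {l : Fin m} (hT : Trig k l) (ρ : VV m k ≃ WW m k) (r : ℕ → ℕ) (h : St ρ r)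
    (hr : 0 < r l) : ∃ ρ' r', RR ρ ρ' ∧ St ρ' r' ∧ r' l + 1 = r l ∧ ∀ i, i < l.val → r' i = r i := by
  have hk := (h.2.2 l).1
  set j : Fin k := ⟨r l - 1, by omega⟩ with hj
  obtain ⟨ρ1, r1, s1, t1, p1, q1⟩ := hT (decide (j.val % 2 = 1)) ρ r h
  obtain ⟨c1, c2, c3⟩ := trig_cases l _ ρ1 p1
  have hl := q1 l le_rfl
  have a1 := (t1.2.2 l).2 j
  have a2 := pos_inj ρ1 (none_ne_fil j)
  have a3 := pos_le ρ1 (tau l)
  have a4 := t1.1
  have hjv : j.val = r l - 1 := rfl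
  obtain ⟨ρ2, s2, t2, p2, q2⟩ := bubbleL l r1 (pos ρ1 (tau l) - pos ρ1 (fil j) - 1) ρ1 t1
    (by omega) (fun j' => by
      have b1 := (t1.2.2 l).2 j'
      have b2 := t1.2.1 j' j
      have b3 := pos_inj ρ1 (tau_ne_fil l j')
      by_cases e : j' = j
      · rw [e]; omega
      · have : j'.val ≠ j.val := fun h => e (Fin.ext h)
        omega)
  have b1 := q2 (fil j) (by omega)
  have b2 := q2 (Tg (some (l, decide (j.val % 2 = 1)))) (by
    have d1 := pos_inj ρ1 c1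
    have d2 := pos_inj ρ1 (c2 j)
    omega)
  obtain ⟨ρ3, s3, m3⟩ := mv_ms ρ2 (some (l, decide (j.val % 2 = 1))) (fil j) (tau l)
    (b2.trans p1) (Or.inr ⟨j, rfl, rfl⟩) (Or.inl rfl) (by omega)
  obtain ⟨-, t3⟩ := t2.cross (l := l) (j := j) false m3
  refine ⟨ρ3, _, (s1.trans s2).tail s3, t3, by simp [hjv]; omega, fun i hi => ?_⟩
  rw [Function.update_of_ne (by omega), q1 i hi.le]

theorem sweepR {l : Fin m} (hT : Trig k l) (n : ℕ) : ∀ (ρ : VV m k ≃ WW m k) (r : ℕ → ℕ),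
    St ρ r → r l + n = k → ∃ ρ' r', RR ρ ρ' ∧ St ρ' r' ∧ pos ρ' (tau l) = m + k ∧
      ∀ i, i < l.val → r' i = r i := by
  induction n with
  | zero =>
    intro ρ r h hr
    have := pos_le ρ (tau l)
    obtain ⟨ρ2, s2, t2, p2, -⟩ := bubbleR l r (m + k - pos ρ (tau l)) ρ h (by omega) (fun j => by
      have b1 := (h.2.2 l).2 j
      have := j.2
      omega)
    exact ⟨ρ2, r, s2, t2, by omega, fun _ _ => rfl⟩
  | succ n ih =>
    intro ρ r h hr
    obtain ⟨ρ1, r1, s1, t1, p1, q1⟩ := crossR hT ρ r h (by omega)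
    obtain ⟨ρ2, r2, s2, t2, p2, q2⟩ := ih ρ1 r1 t1 (by omega)
    exact ⟨ρ2, r2, s1.trans s2, t2, p2, fun i hi => (q2 i hi).trans (q1 i hi)⟩

theorem sweepL {l : Fin m} (hT : Trig k l) (n : ℕ) : ∀ (ρ : VV m k ≃ WW m k) (r : ℕ → ℕ),
    St ρ r → r l = n → ∃ ρ' r', RR ρ ρ' ∧ St ρ' r' ∧ pos ρ' (tau l) = 1 ∧
      ∀ i, i < l.val → r' i = r i := by
  induction n with
  | zero =>
    intro ρ r h hr
    have a1 := pos_inj ρ (none_ne_tau l)
    have a2 := h.1
    obtain ⟨ρ2, s2, t2, p2, -⟩ := bubbleL l r (pos ρ (tau l) - 1) ρ h (by omega) (fun j => by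
      have b1 := (h.2.2 l).2 j
      have b3 := pos_inj ρ (tau_ne_fil l j)
      omega)
    exact ⟨ρ2, r, s2, t2, by omega, fun _ _ => rfl⟩
  | succ n ih =>
    intro ρ r h hr
    obtain ⟨ρ1, r1, s1, t1, p1, q1⟩ := crossL hT ρ r h (by omega)
    obtain ⟨ρ2, r2, s2, t2, p2, q2⟩ := ih ρ1 r1 t1 (by omega)
    exact ⟨ρ2, r2, s1.trans s2, t2, p2, fun i hi => (q2 i hi).trans (q1 i hi)⟩

theorem trig_all (d : ℕ) : ∀ l : Fin m, l.val + d + 1 = m → Trig k l := by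
  induction d with
  | zero =>
    intro l hl e ρ r h
    have hl' : ¬ l.val + 1 < m := by omega
    refine ⟨ρ, r, ReflTransGen.refl, h, ?_, fun _ _ => rfl⟩
    simp only [Tg, Ho, hl', dif_neg, not_false_eq_true]
    exact h.1
  | succ d ih =>
    intro l hl e ρ r h
    have hl' : l.val + 1 < m := by omega
    have hT := ih ⟨l.val + 1, hl'⟩ (by simp only; omega)
    simp only [Tg, Ho, hl', dif_pos]
    cases e
    · obtain ⟨ρ2, r2, s2, t2, p2, q2⟩ := sweepL hT _ ρ r h rfl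
      exact ⟨ρ2, r2, s2, t2, by simpa using p2, fun i hi => q2 i (by simp only; omega)⟩
    · have := (h.2.2 ⟨l.val + 1, hl'⟩).1
      obtain ⟨ρ2, r2, s2, t2, p2, q2⟩ := sweepR hT (k - r (l.val + 1)) ρ r h
        (by simp only at this ⊢; omega)
      exact ⟨ρ2, r2, s2, t2, by simpa using p2, fun i hi => q2 i (by simp only; omega)⟩

def start (m k : ℕ) : VV m k ≃ WW m k :=
  (finSuccEquiv (m + k)).trans (Equiv.optionCongr finSumFinEquiv.symm)

theorem start_st (m k : ℕ) : St (start m k) (fun _ => 0) := by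
  have h1 : ∀ l, pos (start m k) (tau l) = l.val + 1 := by
    intro l; simp [pos, start, tau]
  have h2 : ∀ j, pos (start m k) (fil j) = m + j.val + 1 := by
    intro l; simp [pos, start, fil]
  refine ⟨by simp [pos, start], fun j j' h => by rw [h2, h2]; omega, fun l => ⟨Nat.zero_le _, fun j => ?_⟩⟩
  rw [h1, h2]
  have := l.2
  simp only
  omega

theorem far_main (d k : ℕ) (hk : 0 < k) :
    Far (d + 1 + k + 1 + (4 * ((d + 1) * 2 + 1) + 1)) (k * (k - 1) ^ d) := by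
  set l0 : Fin (d + 1) := ⟨0, by omega⟩ with hl0
  obtain ⟨ρ1, r1, s1, t1, p1, -⟩ := sweepR (trig_all (k := k) d l0 (by simp [hl0])) k
    (start (d + 1) k) _ (start_st _ _) (by simp)
  have := compile (X0 := X0) (Fr := Fr) (Tg := Tg) (A := Ho) ?_ ?_ (start (d + 1) k) ρ1 s1
    (fun ρ v => ∃ r, St ρ r ∧ v = Psi k r d 0) ⟨_, start_st _ _, (Psi_zero _ _ _ _ rfl).symm⟩
    ?_ (k * (k - 1) ^ d) ?_
  · simpa using this
  · rintro (_ | ⟨l, e⟩)
    · simp [Fr, Tg, tau]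
    · simp only [Fr, Tg]
      split_ifs
      · simp [tau, fil, Fin.ext_iff]
      · simp [tau, fil]
  · intro p q h
    exact h.symm
  · rintro ρ ρ' v ⟨r, h, rfl⟩ hs
    obtain ⟨r', h', hle⟩ := h.step hs d rfl
    exact ⟨_, ⟨r', h', rfl⟩, hle⟩
  · rintro v ⟨r, h, rfl⟩
    have hr : r 0 = k := by
      obtain ⟨a0, a1⟩ := h.2.2 l0
      have a2 := a1 ⟨k - 1, by omega⟩
      have a3 := pos_inj ρ1 (fil_ne_tau l0 ⟨k - 1, by omega⟩)
      have a4 := pos_le ρ1 (fil ⟨k - 1, by omega⟩)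
      simp only [hl0] at a0 a2 a3 p1
      omega
    rw [Psi_top k hk r d 0 hr, cc]
    push_cast [Nat.cast_sub hk]
    exact le_rfl

theorem far_exp (C : ℝ) : ∃ n D, Far n D ∧ Real.exp (C * n) < D := by
  obtain ⟨d, hd⟩ := exists_nat_gt (Real.exp (20 * |C|))
  have hd1 : (1 : ℝ) ≤ Real.exp (20 * |C|) := Real.one_le_exp (by positivity)
  have hd0 : 1 ≤ d := by
    have : (1 : ℝ) < d := by linarith
    exact_mod_cast this.le
  refine ⟨_, _, far_main d (d + 1) (by omega), ?_⟩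
  have hd0' : (1 : ℝ) ≤ d := by exact_mod_cast hd0
  calc Real.exp (C * ((d + 1 + (d + 1) + 1 + (4 * ((d + 1) * 2 + 1) + 1) : ℕ) : ℝ))
      ≤ Real.exp (((d + 1 : ℕ) : ℝ) * (20 * |C|)) := by
        apply Real.exp_le_exp.2
        push_cast
        have := le_abs_self C
        have := abs_nonneg C
        nlinarith
    _ = Real.exp (20 * |C|) ^ (d + 1) := Real.exp_nat_mul _ _
    _ < (d : ℝ) ^ (d + 1) := by gcongr
    _ ≤ (((d + 1) * (d + 1 - 1) ^ d : ℕ) : ℝ) := by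
        simp only [Nat.add_sub_cancel]
        push_cast
        rw [pow_succ']
        gcongr
        linarith

end Pool.Agent.H356Z.FS
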